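import Mathlib

set_option autoImplicit false

namespace Pool.Agent.H.MP_6f2e8a_an

open Set Filter Topology Complex Metric

noncomputable def nrm {n : ℕ} (k : Fin n → ℤ) : ℝ := Real.sqrt (∑ i, (k i : ℝ) ^ 2)

theorem schw (ρ : ℝ) (hρ : 1 < ρ) (N : ℕ) : ∀ (g : ℂ → ℂ) (r M : ℝ), N * ρ < r →
    DifferentiableOn ℂ g (ball 0 r) → (∀ t ∈ ball (0 : ℂ) r, ‖g t‖ ≤ M) →
    ‖(fwdDiff (1 : ℂ))^[N] g 0‖ ≤ M * (2 / ρ) ^ N := by
  induction N with
  | zero =>
    intro g r M hr _ hb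
    simpa using hb 0 (mem_ball_self (by simpa using hr))
  | succ N ih =>
    intro g r M hr hd hb
    have sub : ∀ t ∈ ball (0 : ℂ) (r - ρ), ball t ρ ⊆ ball (0 : ℂ) r := fun t ht =>
      ball_subset_ball' (by rw [mem_ball] at ht; linarith)
    have h1 : ∀ t : ℂ, t + 1 ∈ ball t ρ := fun t => by simpa [dist_eq_norm] using hρ
    rw [Function.iterate_succ_apply, pow_succ', ← mul_assoc]
    refine ih _ (r - ρ) _ (by push_cast at hr; linarith) ?_ fun t ht => ?_
    · refine DifferentiableOn.sub (f := fun t => g (t + 1)) (g := g) ?_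
        (hd.mono (ball_subset_ball (by linarith)))
      exact hd.comp (by fun_prop) fun t ht => sub t ht (h1 t)
    · have := dist_le_div_mul_dist_of_mapsTo_ball (R₂ := 2 * M) (hd.mono (sub t ht))
        (fun z hz => by
          rw [mem_closedBall, dist_eq_norm]
          linarith [norm_sub_le (g z) (g t), hb z (sub t ht hz),
            hb t (sub t ht (mem_ball_self (by linarith)))]) (h1 t)
      simp only [dist_eq_norm, add_sub_cancel_left, norm_one, mul_one] at this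
      calc ‖fwdDiff 1 g t‖ = ‖g (t + 1) - g t‖ := rfl
        _ ≤ _ := this
        _ = _ := by ring

theorem poly_bound {n d : ℕ} (P : MvPolynomial (Fin n) ℂ) (hP : P.IsHomogeneous d) :
    ∃ K : ℝ, 0 ≤ K ∧ ∀ (x : Fin n → ℂ) (B : ℝ), 0 ≤ B → (∀ i, ‖x i‖ ≤ B) →
      ‖MvPolynomial.eval x P‖ ≤ K * B ^ d := by
  refine ⟨∑ m ∈ P.support, ‖P.coeff m‖, Finset.sum_nonneg fun _ _ => norm_nonneg _,
    fun x B hB hx => ?_⟩
  rw [MvPolynomial.eval_eq', Finset.sum_mul]
  refine norm_sum_le_of_le _ fun m hm => ?_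
  have hdeg : ∑ i, m i = d := by
    by_contra hne
    refine MvPolynomial.mem_support_iff.1 hm (hP.coeff_eq_zero ?_)
    rwa [Finsupp.degree_eq_sum]
  rw [norm_mul, norm_prod, ← hdeg, ← Finset.prod_pow_eq_pow_sum]
  refine mul_le_mul_of_nonneg_left (Finset.prod_le_prod (fun _ _ => norm_nonneg _) fun i _ => ?_)
    (norm_nonneg _)
  rw [norm_pow]
  exact pow_le_pow_left₀ (norm_nonneg _) (hx i) _

noncomputable def ph (P : MvPolynomial (Fin 2) ℂ) (s : ℂ) (k : Fin 2 → ℤ) : ℂ :=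
  if k = 0 then 0 else MvPolynomial.eval (fun i => (k i : ℂ)) P * ((nrm k : ℝ) : ℂ) ^ (-s)

theorem abs_le_nrm {n : ℕ} (k : Fin n → ℤ) (i : Fin n) : |(k i : ℝ)| ≤ nrm k :=
  Real.abs_le_sqrt (Finset.single_le_sum (f := fun i => (k i : ℝ) ^ 2)
    (fun _ _ => sq_nonneg _) (Finset.mem_univ i))

theorem nrm_sq {n : ℕ} (k : Fin n → ℤ) : nrm k ^ 2 = ∑ i, (k i : ℝ) ^ 2 :=
  Real.sq_sqrt (Finset.sum_nonneg fun _ _ => sq_nonneg _)

theorem nrm_pos {n : ℕ} (k : Fin n → ℤ) (hk : k ≠ 0) : 0 < nrm k := by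
  obtain ⟨i, hi⟩ := Function.ne_iff.1 hk
  exact lt_of_lt_of_le (abs_pos.2 (by exact_mod_cast hi)) (abs_le_nrm k i)

theorem norm_le_nrm {n : ℕ} (k : Fin n → ℤ) : ‖k‖ ≤ nrm k :=
  (pi_norm_le_iff_of_nonneg (Real.sqrt_nonneg _)).2 fun i => by
    rw [Int.norm_eq_abs]; exact abs_le_nrm k i

theorem cpow_half (r : ℝ) (hr : 0 < r) (s : ℂ) : ((r ^ 2 : ℝ) : ℂ) ^ (-s / 2) = (r : ℂ) ^ (-s) := by
  rw [cpow_def_of_ne_zero (by exact_mod_cast (pow_pos hr 2).ne'),
    cpow_def_of_ne_zero (by exact_mod_cast hr.ne'), ← ofReal_log (pow_pos hr 2).le,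
    ← ofReal_log hr.le, Real.log_pow]
  push_cast
  ring_nf

theorem diff_bound {d : ℕ} (P : MvPolynomial (Fin 2) ℂ) (hP : P.IsHomogeneous d) (N : ℕ) (R : ℝ) :
    ∃ K : ℝ, 0 ≤ K ∧ ∀ s : ℂ, ‖s‖ ≤ R → ∀ (j : Fin 2) (k : Fin 2 → ℤ), 4 * ((N : ℝ) + 1) < nrm k →
      ‖(fwdDiff (Pi.single j 1 : Fin 2 → ℤ))^[N] (ph P s) k‖ ≤ K * nrm k ^ (d - s.re - N) := by
  obtain ⟨K, K0, hK⟩ := poly_bound P hP
  refine ⟨K * 2 ^ d * (4 ^ R * Real.exp (Real.pi * R)) * (8 * (N + 1)) ^ N, by positivity,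
    fun s hs j k hk => ?_⟩
  set ν := nrm k with hν
  have hN0 : (0 : ℝ) ≤ N := Nat.cast_nonneg N
  have ν0 : 0 < ν := by linarith
  set x : ℂ → Fin 2 → ℂ := fun t i => (k i : ℂ) + t * (Pi.single j 1 : Fin 2 → ℂ) i with hx
  set w : ℂ → ℂ := fun t => ((ν ^ 2 : ℝ) : ℂ) + 2 * (k j : ℂ) * t + t ^ 2 with hw
  have kj : ‖(k j : ℂ)‖ ≤ ν := by rw [norm_intCast]; exact abs_le_nrm k j
  have w1 : ∀ t ∈ ball (0 : ℂ) (ν / 4), ‖w t - ((ν ^ 2 : ℝ) : ℂ)‖ ≤ 9 / 16 * ν ^ 2 := by
    intro t ht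
    rw [mem_ball_zero_iff] at ht
    have e : w t - ((ν ^ 2 : ℝ) : ℂ) = 2 * (k j : ℂ) * t + t ^ 2 := by simp only [hw]; ring
    rw [e]
    refine (norm_add_le _ _).trans ?_
    rw [norm_mul, norm_mul, norm_pow, Complex.norm_ofNat]
    have := norm_nonneg t
    have := norm_nonneg (k j : ℂ)
    nlinarith [mul_le_mul kj ht.le (norm_nonneg t) ν0.le]
  have w2 : ∀ t ∈ ball (0 : ℂ) (ν / 4), 7 / 16 * ν ^ 2 ≤ (w t).re := fun t ht => by
    have := (abs_le.1 ((abs_re_le_norm _).trans (w1 t ht))).1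
    rw [sub_re, ofReal_re] at this
    linarith
  have w3 : ∀ t ∈ ball (0 : ℂ) (ν / 4), ‖w t‖ ≤ 4 * ν ^ 2 := fun t ht => by
    have := norm_le_norm_add_norm_sub' (w t) ((ν ^ 2 : ℝ) : ℂ)
    rw [norm_real, Real.norm_of_nonneg (sq_nonneg _)] at this
    nlinarith [w1 t ht]
  set g : ℂ → ℂ := fun t => MvPolynomial.eval (x t) P * w t ^ (-s / 2) with hg
  have hd : DifferentiableOn ℂ g (ball 0 (ν / 4)) := by
    refine DifferentiableOn.mul ?_ (DifferentiableOn.cpow_const (by fun_prop) fun t ht => ?_)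
    · simp only [MvPolynomial.eval_eq', hx]
      fun_prop
    · exact Or.inl (lt_of_lt_of_le (by positivity) (w2 t ht))
  have hb : ∀ t ∈ ball (0 : ℂ) (ν / 4),
      ‖g t‖ ≤ K * (2 * ν) ^ d * (ν ^ (-s.re) * (4 ^ R * Real.exp (Real.pi * R))) := by
    intro t ht
    have hre := w2 t ht
    have hw0 : 7 / 16 * ν ^ 2 ≤ ‖w t‖ := hre.trans (re_le_norm _)
    rw [hg, norm_mul]
    refine mul_le_mul (hK _ _ (by positivity) fun i => ?_) ?_ (norm_nonneg _) (by positivity)
    · rw [mem_ball_zero_iff] at ht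
      refine (norm_add_le _ _).trans ?_
      have a1 : ‖(k i : ℂ)‖ ≤ ν := by rw [norm_intCast]; exact abs_le_nrm k i
      have a2 : ‖(Pi.single j 1 : Fin 2 → ℂ) i‖ ≤ 1 := by
        rw [Pi.single_apply]; split_ifs <;> simp
      rw [norm_mul]
      nlinarith [norm_nonneg t]
    · refine (norm_cpow_le _ _).trans ?_
      rw [div_eq_mul_inv, ← Real.exp_neg, ← mul_assoc]
      have hsre : |s.re| ≤ R := (abs_re_le_norm s).trans hs
      have hsim : |s.im| ≤ R := (abs_im_le_norm s).trans hs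
      have R0 : 0 ≤ R := (norm_nonneg _).trans hs
      refine mul_le_mul ?_ (Real.exp_le_exp.2 ?_) (by positivity) (by positivity)
      · obtain ⟨y, hy⟩ : ∃ y, ‖w t‖ = ν ^ 2 * y := ⟨‖w t‖ / ν ^ 2, by field_simp⟩
        have y1 : 1 / 4 ≤ y := by
          by_contra hc
          rw [hy] at hw0
          nlinarith [pow_pos ν0 2]
        have y2 : y ≤ 4 := by
          by_contra hc
          have := w3 t ht
          rw [hy] at this
          nlinarith [pow_pos ν0 2]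
        have e : (-s / 2).re = -s.re / 2 := by simp
        rw [hy, e, Real.mul_rpow (by positivity) (by linarith), ← Real.rpow_natCast,
          ← Real.rpow_mul ν0.le]
        refine mul_le_mul (le_of_eq (by congr 1; push_cast; ring)) ?_ (by positivity)
          (by positivity)
        have := abs_le.1 hsre
        rcases le_total 0 (-s.re / 2) with h | h
        · exact (Real.rpow_le_rpow (by linarith) y2 h).trans
            (Real.rpow_le_rpow_of_exponent_le (by norm_num) (by linarith))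
        · refine (Real.rpow_le_rpow_of_nonpos (by norm_num) y1 h).trans ?_
          rw [one_div, Real.inv_rpow (by norm_num), ← Real.rpow_neg (by norm_num)]
          exact Real.rpow_le_rpow_of_exponent_le (by norm_num) (by linarith)
      · refine (neg_le_abs _).trans ?_
        rw [abs_mul]
        refine mul_le_mul (abs_arg_le_pi _) ?_ (abs_nonneg _) Real.pi_pos.le
        have e : (-s / 2).im = -s.im / 2 := by simp
        rw [e, abs_div, abs_neg, abs_two]
        linarith [abs_nonneg s.im]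
  have hρ : 1 < ν / (4 * (N + 1)) := by rw [lt_div_iff₀ (by positivity)]; linarith
  have hS := schw _ hρ N g (ν / 4) _ (by
    rw [← mul_div_assoc, div_lt_div_iff₀ (by positivity) (by positivity)]; nlinarith) hd hb
  have e : (fwdDiff (Pi.single j 1 : Fin 2 → ℤ))^[N] (ph P s) k = (fwdDiff (1 : ℂ))^[N] g 0 := by
    rw [fwdDiff_iter_eq_sum_shift, fwdDiff_iter_eq_sum_shift]
    refine Finset.sum_congr rfl fun i hi => ?_
    congr 1
    have hi' : (i : ℝ) ≤ N := by exact_mod_cast Nat.lt_succ_iff.1 (Finset.mem_range.1 hi)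
    have hiB : (i : ℂ) ∈ ball (0 : ℂ) (ν / 4) := by
      rw [mem_ball_zero_iff, Complex.norm_natCast]; linarith
    set k' : Fin 2 → ℤ := k + i • (Pi.single j 1 : Fin 2 → ℤ) with hk'
    have e1 : w i = ((nrm k' ^ 2 : ℝ) : ℂ) := by
      rw [hw, hν, nrm_sq, nrm_sq, hk']
      fin_cases j <;> simp [Fin.sum_univ_two] <;> ring
    have e2 : k' ≠ 0 := fun h => by
      have := w2 i hiB
      rw [e1, h, ofReal_re] at this
      simp only [nrm, Pi.zero_apply, Int.cast_zero] at this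
      norm_num at this
      nlinarith [pow_pos ν0 2]
    have e3 : x i = fun a => (k' a : ℂ) := by
      funext a
      simp only [hx, hk', Pi.add_apply, Pi.smul_apply, Pi.single_apply]
      split_ifs <;> simp
    simp only [zero_add, nsmul_eq_mul, mul_one, hg, ph, if_neg e2, e1, e3,
      cpow_half _ (nrm_pos _ e2)]
  rw [e]
  refine hS.trans (le_of_eq ?_)
  rw [show (d : ℝ) - s.re - N = d + (-s.re) - N by ring, Real.rpow_sub ν0, Real.rpow_add ν0,
    Real.rpow_natCast, Real.rpow_natCast, mul_pow,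
    show 2 / (ν / (4 * ((N : ℝ) + 1))) = 8 * (N + 1) / ν by field_simp; ring, div_pow]
  ring

theorem diff_entire (P : MvPolynomial (Fin 2) ℂ) (N : ℕ) (h k : Fin 2 → ℤ) :
    Differentiable ℂ fun s => (fwdDiff h)^[N] (ph P s) k := by
  simp only [fwdDiff_iter_eq_sum_shift]
  refine Differentiable.fun_sum fun i _ => Differentiable.const_smul ?_ _
  unfold ph
  split_ifs with h0
  · fun_prop
  · exact (differentiable_neg.const_cpow (Or.inl (by exact_mod_cast (nrm_pos _ h0).ne'))).const_mul _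

theorem maj {d : ℕ} (P : MvPolynomial (Fin 2) ℂ) (hP : P.IsHomogeneous d) (N : ℕ) (R σ : ℝ)
    (hσ : 2 + d - N < σ) : ∃ u : (Fin 2 → ℤ) → ℝ, Summable u ∧ ∀ s : ℂ, ‖s‖ ≤ R → σ ≤ s.re →
      ∀ (j : Fin 2) (k : Fin 2 → ℤ), ‖(fwdDiff (Pi.single j 1 : Fin 2 → ℤ))^[N] (ph P s) k‖ ≤ u k := by
  obtain ⟨K, K0, hK⟩ := diff_bound P hP N R
  have hB : ∀ k : Fin 2 → ℤ, ∃ B : ℝ, ∀ s ∈ closedBall (0 : ℂ) R, ‖fun j : Fin 2 =>
      (fwdDiff (Pi.single j 1 : Fin 2 → ℤ))^[N] (ph P s) k‖ ≤ B := fun k =>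
    (isCompact_closedBall 0 R).exists_bound_of_continuousOn
      (continuous_pi fun j => (diff_entire P N _ k).continuous).continuousOn
  choose B hB using hB
  refine ⟨fun k => if 4 * ((N : ℝ) + 1) < ‖k‖ then K * ‖k‖ ^ (-(σ + N - d)) else B k, ?_,
    fun s hs hσ' j k => ?_⟩
  · refine ((EisensteinSeries.summable_one_div_norm_rpow (k := σ + N - d)
      (by linarith)).mul_left K).congr_cofinite ?_
    have hf : (closedBall (0 : Fin 2 → ℤ) (4 * ((N : ℝ) + 1))).Finite :=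
      (isCompact_closedBall _ _).finite_of_discrete
    filter_upwards [hf.compl_mem_cofinite] with k hk
    rw [if_pos (by simpa using hk)]
  · beta_reduce
    split_ifs with h
    · have hN0 : (0 : ℝ) ≤ N := Nat.cast_nonneg N
      have h1 := norm_le_nrm k
      refine (hK s hs j k (by linarith)).trans (mul_le_mul_of_nonneg_left ?_ K0)
      refine (Real.rpow_le_rpow_of_exponent_le (y := d - s.re - N) (z := -(σ + N - d))
        (by linarith) (by linarith)).trans ?_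
      exact Real.rpow_le_rpow_of_nonpos (by linarith) h1 (by linarith)
    · exact (norm_le_pi_norm (fun j : Fin 2 =>
        (fwdDiff (Pi.single j 1 : Fin 2 → ℤ))^[N] (ph P s) k) j).trans
        (hB k s (mem_closedBall_zero_iff.2 hs))

end Pool.Agent.H.MP_6f2e8a_an
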