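import Pool.Agent.H.MP_6f2e8a_an.A

set_option autoImplicit false

namespace Pool.Agent.H.MP_6f2e8a_an

open Set Filter Topology Complex Metric

noncomputable def fa {n : ℕ} (P : MvPolynomial (Fin n) ℂ) (a : Fin n → ℝ) (s : ℂ) : ℂ :=
  ∑' k : {k : Fin n → ℤ // k ≠ 0}, MvPolynomial.eval (fun i => (k.1 i : ℂ)) P *
    ((nrm k.1 : ℝ) : ℂ) ^ (-s) * cexp (2 * Real.pi * I * ((∑ i, (k.1 i : ℝ) * a i : ℝ) : ℂ))

def Rapid {q n : ℕ} (b : (Fin q → Fin n → ℤ) → ℂ) : Prop :=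
  ∀ m : Fin q → Fin n → ℕ, ∃ C : ℝ, ∀ l, (∏ i, ∏ j, |(l i j : ℝ)| ^ m i j) * ‖b l‖ ≤ C

def PropH {n : ℕ} (Θ : Matrix (Fin n) (Fin n) ℝ) : Prop :=
  ∀ q : ℕ, 1 ≤ q → ∀ (d : ℕ) (P : MvPolynomial (Fin n) ℂ), P.IsHomogeneous d →
    ∀ b : (Fin q → Fin n → ℤ) → ℂ, Rapid b → ∀ ε : Fin q → ℤ, (∀ i, ε i ∈ ({-1, 0, 1} : Set ℤ)) →
      ∃ G : ℂ → ℂ, Differentiable ℂ G ∧ ∀ s : ℂ, (n : ℝ) + d < s.re →
        HasSum (fun l : {l : Fin q → Fin n → ℤ // ∑ i, ε i • l i ≠ 0} =>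
          b l.1 * fa P (Θ.mulVec fun j => (((∑ i, ε i • l.1 i) j : ℤ) : ℝ)) s) (G s)

def BadVec {n : ℕ} (a : Fin n → ℝ) : Prop :=
  ∃ δ : ℝ, 0 < δ ∧ ∃ c : ℝ, 0 < c ∧ ∀ v : Fin n → ℤ, v ≠ 0 → ∀ m : ℤ,
    c * nrm v ^ (-δ) ≤ |∑ i, (v i : ℝ) * a i - m|

def BadMat {n : ℕ} (Θ : Matrix (Fin n) (Fin n) ℝ) : Prop :=
  ∃ u : Fin n → ℤ, BadVec (Θ.transpose.mulVec fun j => (u j : ℝ))

noncomputable def ee (a : Fin 2 → ℝ) (k : Fin 2 → ℤ) : ℂ :=
  cexp (2 * Real.pi * I * ((∑ i, (k i : ℝ) * a i : ℝ) : ℂ))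

theorem ee_norm (a : Fin 2 → ℝ) (k : Fin 2 → ℤ) : ‖ee a k‖ = 1 := by
  rw [ee, norm_exp]
  simp

noncomputable def HH (P : MvPolynomial (Fin 2) ℂ) (N : ℕ) (j : Fin 2) (a : Fin 2 → ℝ) (s : ℂ) : ℂ :=
  ∑' k, (fwdDiff (Pi.single j 1 : Fin 2 → ℤ))^[N] (ph P s) k * ee a k

theorem HH_zero (P : MvPolynomial (Fin 2) ℂ) (j : Fin 2) (a : Fin 2 → ℝ) (s : ℂ) :
    HH P 0 j a s = fa P a s := by
  unfold HH fa
  rw [← tsum_subtype_eq_of_support_subset (s := {k | k ≠ 0})]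
  · refine tsum_congr fun k => ?_
    have : k.1 ≠ 0 := k.2
    simp only [Function.iterate_zero, id, ph, if_neg this, ee]
  · intro k hk h0
    apply hk
    simp [ph, h0]

theorem sbp (ψ : (Fin 2 → ℤ) → ℂ) (a : Fin 2 → ℝ) (j : Fin 2)
    (h1 : Summable fun k => ψ k * ee a k) :
    ∑' k, fwdDiff (Pi.single j 1 : Fin 2 → ℤ) ψ k * ee a k =
      (cexp (I * ((-(2 * Real.pi * a j) : ℝ) : ℂ)) - 1) * ∑' k, ψ k * ee a k := by
  have e : ∀ k, ee a k = cexp (I * ((-(2 * Real.pi * a j) : ℝ) : ℂ)) *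
      ee a (k + Pi.single j 1) := fun k => by
    rw [ee, ee, ← exp_add]
    congr 1
    fin_cases j <;> simp [Fin.sum_univ_two] <;> ring
  generalize cexp (I * ((-(2 * Real.pi * a j) : ℝ) : ℂ)) = c at e ⊢
  generalize (Pi.single j 1 : Fin 2 → ℤ) = h at e ⊢
  generalize ee a = E at e h1 ⊢
  have h2 : Summable ((fun k => ψ k * E k) ∘ Equiv.addRight h) :=
    (Equiv.addRight h).summable_iff.2 h1
  have h3 := (Equiv.addRight h).tsum_eq fun k => ψ k * E k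
  have e2 : ∀ k, fwdDiff h ψ k * E k =
      c * ((fun k => ψ k * E k) ∘ Equiv.addRight h) k - ψ k * E k := fun k => by
    simp only [fwdDiff, Function.comp, Equiv.coe_addRight]
    rw [mul_left_comm, ← e k]
    ring
  rw [tsum_congr e2, (h2.mul_left _).tsum_sub h1, tsum_mul_left, sub_mul, one_mul, ← h3]
  rfl

theorem HH_succ {d : ℕ} (P : MvPolynomial (Fin 2) ℂ) (hP : P.IsHomogeneous d) (N : ℕ) (j : Fin 2)
    (a : Fin 2 → ℝ) (s : ℂ) (hs : 2 + d - N < s.re) :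
    HH P (N + 1) j a s = (cexp (I * ((-(2 * Real.pi * a j) : ℝ) : ℂ)) - 1) * HH P N j a s := by
  obtain ⟨u, hu, hb⟩ := maj P hP N ‖s‖ s.re hs
  unfold HH
  rw [Function.iterate_succ_apply']
  exact sbp _ a j (Summable.of_norm_bounded hu fun k => by
    rw [norm_mul, ee_norm, mul_one]; exact hb s le_rfl le_rfl j k)

theorem HH_ball {d : ℕ} (P : MvPolynomial (Fin 2) ℂ) (hP : P.IsHomogeneous d) (N : ℕ) (s0 : ℂ)
    (r : ℝ) (hs : 2 + d - N < s0.re - r) : ∃ B : ℝ, ∀ j a,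
      DifferentiableOn ℂ (HH P N j a) (ball s0 r) ∧ ∀ s ∈ ball s0 r, ‖HH P N j a s‖ ≤ B := by
  obtain ⟨u, hu, hb⟩ := maj P hP N (‖s0‖ + r) (s0.re - r) hs
  have hb' : ∀ j a k, ∀ s ∈ ball s0 r,
      ‖(fwdDiff (Pi.single j 1 : Fin 2 → ℤ))^[N] (ph P s) k * ee a k‖ ≤ u k := by
    intro j a k s h
    rw [mem_ball, dist_eq_norm] at h
    rw [norm_mul, ee_norm, mul_one]
    refine hb s (by linarith [norm_le_norm_add_norm_sub' s s0]) ?_ j k
    have := (abs_le.1 (abs_re_le_norm (s - s0))).1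
    rw [sub_re] at this
    linarith
  refine ⟨∑' k, u k, fun j a => ⟨differentiableOn_tsum_of_summable_norm hu
    (fun k => ((diff_entire P N _ k).mul_const _).differentiableOn) isOpen_ball (hb' j a),
    fun s h => tsum_of_norm_bounded hu.hasSum fun k => hb' j a k s h⟩⟩

theorem dioph (w : ℤ) (hw : w ≠ 0) :
    1 ≤ |(w : ℝ)| * ‖cexp (I * ((-(2 * Real.pi * (√2 * w)) : ℝ) : ℂ)) - 1‖ := by
  set m := round (√2 * w : ℝ) with hm
  have h1 : |√2 * w - m| ≤ 1 / 2 := abs_sub_round _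
  have s2 : (√2 : ℝ) ^ 2 = 2 := Real.sq_sqrt (by norm_num)
  have s3 : (√2 : ℝ) ≤ 3 / 2 := Real.sqrt_le_iff.2 ⟨by norm_num, by norm_num⟩
  have w1 : (1 : ℝ) ≤ |(w : ℝ)| := by exact_mod_cast Int.one_le_abs hw
  have h2 : 2 * w ^ 2 - m ^ 2 ≠ 0 := fun h => by
    have h3 : Irrational (√2 * w) := irrational_sqrt_two.mul_intCast hw
    have h4 : (√2 * w) ^ 2 = (m : ℝ) ^ 2 := by
      have : (2 * w ^ 2 - m ^ 2 : ℝ) = 0 := by exact_mod_cast h
      rw [mul_pow, s2]; linarith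
    rcases sq_eq_sq_iff_eq_or_eq_neg.1 h4 with h5 | h5
    · exact h3.ne_int m h5
    · exact h3.ne_int (-m) (by rw [h5]; push_cast; ring)
  have h3 : (1 : ℝ) ≤ |√2 * w - m| * |√2 * w + m| := by
    rw [← abs_mul, show (√2 * w - m) * (√2 * w + m) = √2 ^ 2 * w ^ 2 - m ^ 2 by ring, s2]
    exact_mod_cast Int.one_le_abs h2
  have h4 : |√2 * w + m| ≤ 4 * |(w : ℝ)| := by
    have : √2 * w + m = 2 * (√2 * w) - (√2 * w - m) := by ring
    rw [this]
    refine (abs_sub _ _).trans ?_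
    rw [abs_mul, abs_mul, abs_two, abs_of_nonneg (Real.sqrt_nonneg 2)]
    nlinarith
  have e : -(2 * Real.pi * (√2 * w)) / 2 = -(Real.pi * (√2 * w - m)) - m * Real.pi := by ring
  rw [norm_exp_I_mul_ofReal_sub_one, e, Real.norm_eq_abs, abs_mul, abs_two,
    Real.sin_sub_int_mul_pi, abs_mul, abs_neg_one_zpow, one_mul, Real.sin_neg, abs_neg]
  have h5 := Real.mul_abs_le_abs_sin (x := Real.pi * (√2 * w - m)) (by
    rw [abs_mul, abs_of_pos Real.pi_pos]; nlinarith [Real.pi_pos])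
  rw [abs_mul, abs_of_pos Real.pi_pos, ← mul_assoc, div_mul_cancel₀ _ Real.pi_pos.ne'] at h5
  nlinarith [abs_nonneg (√2 * w - m), mul_le_mul_of_nonneg_left h4 (abs_nonneg (√2 * w - m))]

theorem pi_summable {ι α : Type} [Fintype ι] [DecidableEq ι] [DecidableEq α] (g : α → ℝ)
    (g0 : ∀ a, 0 ≤ g a) (hg : Summable g) : Summable fun l : ι → α => ∏ i, g (l i) := by
  refine summable_of_sum_le (c := ∏ _i : ι, ∑' a, g a)
    (fun l => Finset.prod_nonneg fun i _ => g0 _) fun F => ?_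
  calc ∑ l ∈ F, ∏ i, g (l i)
      ≤ ∑ l ∈ Fintype.piFinset fun i => F.image fun l => l i, ∏ i, g (l i) :=
        Finset.sum_le_sum_of_subset_of_nonneg (fun l hl => Fintype.mem_piFinset.2 fun i =>
          Finset.mem_image_of_mem _ hl) fun l _ _ => Finset.prod_nonneg fun i _ => g0 _
    _ = ∏ i, ∑ a ∈ F.image fun l => l i, g a := (Finset.prod_univ_sum _ _).symm
    _ ≤ _ := Finset.prod_le_prod (fun i _ => Finset.sum_nonneg fun a _ => g0 a)
        fun i _ => hg.sum_le_tsum _ fun a _ => g0 a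

theorem rapid_summable {q n : ℕ} (b : (Fin q → Fin n → ℤ) → ℂ) (hb : Rapid b) (M : ℕ) :
    Summable fun l => ‖b l‖ * (∏ i, ∏ j, max 1 |(l i j : ℝ)|) ^ M := by
  choose C hC using hb
  have hg : Summable fun z : ℤ => (max 1 |(z : ℝ)| ^ 2)⁻¹ := by
    refine (Real.summable_one_div_int_pow.2 one_lt_two).congr_cofinite ?_
    filter_upwards [(finite_singleton (0 : ℤ)).compl_mem_cofinite] with z hz
    rw [max_eq_right (by exact_mod_cast Int.one_le_abs hz), sq_abs, one_div]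
  have h1 := pi_summable (ι := Fin q) _ (fun l => Finset.prod_nonneg fun j _ => by positivity)
    (pi_summable (ι := Fin n) _ (fun z => by positivity) hg)
  refine Summable.of_nonneg_of_le (fun l => by positivity) (fun l => ?_)
    (h1.mul_left (∑ T : Fin q → Fin n → Bool, |C fun i j => if T i j then M + 2 else 0|))
  have h2 := hC (fun i j => if decide (l i j ≠ 0) then M + 2 else 0) l
  have h3 : ∏ i, ∏ j, |(l i j : ℝ)| ^ (if decide (l i j ≠ 0) then M + 2 else 0) =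
      ∏ i, ∏ j, max 1 |(l i j : ℝ)| ^ (M + 2) := by
    refine Finset.prod_congr rfl fun i _ => Finset.prod_congr rfl fun j _ => ?_
    by_cases h : l i j = 0
    · simp [h]
    · rw [max_eq_right (by exact_mod_cast Int.one_le_abs h)]
      simp [h]
  have h4 := Finset.single_le_sum (f := fun T : Fin q → Fin n → Bool =>
    |C fun i j => if T i j then M + 2 else 0|) (fun _ _ => abs_nonneg _)
    (Finset.mem_univ fun i j => decide (l i j ≠ 0))
  have h5 := (h2.trans (le_abs_self _)).trans h4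
  rw [h3] at h5
  simp only [Finset.prod_pow, Finset.prod_inv_distrib] at h5 ⊢
  have h6 : 0 < ∏ i, ∏ j, max 1 |(l i j : ℝ)| := by positivity
  rw [← div_eq_mul_inv, le_div_iff₀ (by positivity)]
  refine le_trans (le_of_eq ?_) h5
  ring

theorem coord_le {q : ℕ} (ε : Fin q → ℤ) (hε : ∀ i, ε i ∈ ({-1, 0, 1} : Set ℤ))
    (l : Fin q → Fin 2 → ℤ) (j : Fin 2) :
    |(((∑ i, ε i • l i) j : ℤ) : ℝ)| ≤ q * ∏ i, ∏ j, max 1 |(l i j : ℝ)| := by
  rw [Finset.sum_apply]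
  push_cast
  refine (Finset.abs_sum_le_sum_abs _ _).trans ?_
  have : ∀ i, |(((ε i • l i) j : ℤ) : ℝ)| ≤ ∏ i, ∏ j, max 1 |(l i j : ℝ)| := fun i => by
    have h1 : |(((ε i • l i) j : ℤ) : ℝ)| ≤ max 1 |(l i j : ℝ)| := by
      rcases hε i with h | h | h
      · simp [h]
      · simp [h]
      · rw [mem_singleton_iff] at h
        simp [h]
    have key : ∀ {ι : Type} [Fintype ι] (f : ι → ℝ), (∀ i, 1 ≤ f i) → ∀ i, f i ≤ ∏ i, f i := by
      intro ι _ f hf i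
      simpa using Finset.prod_le_prod_of_subset_of_one_le (f := f) (Finset.subset_univ {i})
        (fun i _ => by linarith [hf i]) fun i _ _ => hf i
    exact h1.trans ((key (fun j => max 1 |(l i j : ℝ)|) (fun _ => le_max_left _ _) j).trans
      (key (fun i => ∏ j, max 1 |(l i j : ℝ)|)
        (fun i => (le_max_left _ _).trans
          (key (fun j => max 1 |(l i j : ℝ)|) (fun _ => le_max_left _ _) j)) i))
  refine (Finset.sum_le_sum fun i _ => this i).trans ?_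
  simp

theorem propH : PropH (Matrix.diagonal fun _ : Fin 2 => (√2 : ℝ)) := by
  intro q _ d P hP b hb ε hε
  have hj : ∀ l : {l : Fin q → Fin 2 → ℤ // ∑ i, ε i • l i ≠ 0}, ∃ j, (∑ i, ε i • l.1 i) j ≠ 0 :=
    fun l => Function.ne_iff.1 l.2
  choose j hj using hj
  obtain ⟨a, ha⟩ : ∃ a : {l : Fin q → Fin 2 → ℤ // ∑ i, ε i • l i ≠ 0} → Fin 2 → ℝ,
      ∀ l, a l = (Matrix.diagonal fun _ : Fin 2 => (√2 : ℝ)).mulVec
        fun j => (((∑ i, ε i • l.1 i) j : ℤ) : ℝ) := ⟨_, fun _ => rfl⟩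
  obtain ⟨c, hc⟩ : ∃ c : {l : Fin q → Fin 2 → ℤ // ∑ i, ε i • l i ≠ 0} → ℂ,
      ∀ l, c l = cexp (I * ((-(2 * Real.pi * a l (j l)) : ℝ) : ℂ)) - 1 := ⟨_, fun _ => rfl⟩
  have c1 : ∀ l, 1 ≤ (q * ∏ i, ∏ j, max 1 |(l.1 i j : ℝ)|) * ‖c l‖ := fun l => by
    rw [hc, ha, Matrix.mulVec_diagonal]
    exact (dioph _ (hj l)).trans
      (mul_le_mul_of_nonneg_right (coord_le ε hε l.1 (j l)) (norm_nonneg _))
  have c0 : ∀ l, c l ≠ 0 := fun l h => by
    have := c1 l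
    rw [h, norm_zero, mul_zero] at this
    linarith
  obtain ⟨T, hT⟩ : ∃ T : ℕ → {l : Fin q → Fin 2 → ℤ // ∑ i, ε i • l i ≠ 0} → ℂ → ℂ,
      ∀ N l s, T N l s = b l.1 * (c l)⁻¹ ^ N * HH P N (j l) (a l) s := ⟨_, fun _ _ _ => rfl⟩
  have T1 : ∀ (N : ℕ) (s : ℂ), 2 + d - N < s.re → ∀ M, N ≤ M → ∀ l, T M l s = T N l s := by
    intro N s hs M hM l
    induction M, hM using Nat.le_induction with
    | base => rfl
    | succ M hM ih =>
      have : (N : ℝ) ≤ M := by exact_mod_cast hM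
      rw [← ih, hT, hT, HH_succ P hP M _ _ s (by linarith), ← hc, pow_succ]
      have := c0 l
      field_simp
  have T2 : ∀ (N : ℕ) (s0 : ℂ) (r : ℝ), 2 + d - N < s0.re - r → ∃ u, Summable u ∧
      ∀ l, DifferentiableOn ℂ (T N l) (ball s0 r) ∧ ∀ s ∈ ball s0 r, ‖T N l s‖ ≤ u l := by
    intro N s0 r hs
    obtain ⟨B, hB⟩ := HH_ball P hP N s0 r hs
    refine ⟨_, (((rapid_summable b hb N).subtype _).mul_left ((q : ℝ) ^ N * B)), fun l =>
      ⟨?_, fun s hs => ?_⟩⟩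
    · rw [funext (hT N l)]
      exact ((hB _ _).1).const_mul _
    · have h1 := (hB (j l) (a l)).2 s hs
      have h2 : ‖c l‖⁻¹ ≤ q * ∏ i, ∏ j, max 1 |(l.1 i j : ℝ)| := by
        rw [← one_div, div_le_iff₀ (norm_pos_iff.2 (c0 l))]
        exact c1 l
      have h3 := pow_le_pow_left₀ (by positivity) h2 N
      rw [hT, norm_mul, norm_mul, norm_pow, norm_inv]
      refine (mul_le_mul (mul_le_mul_of_nonneg_left h3 (norm_nonneg _)) h1 (norm_nonneg _)
        (by positivity)).trans (le_of_eq ?_)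
      simp only [Function.comp]
      ring
  have hN : ∀ s : ℂ, (2 + d - ((⌈2 + d - s.re⌉₊ + 1 : ℕ) : ℝ) : ℝ) < s.re := fun s => by
    have := Nat.le_ceil (2 + d - s.re)
    push_cast
    linarith
  have hG : ∀ (N : ℕ) (s : ℂ), 2 + d - N < s.re → ∀ l, T (⌈2 + d - s.re⌉₊ + 1) l s = T N l s :=
    fun N s hs l => (T1 _ s (hN s) _ (le_max_left _ N) l).symm.trans
      (T1 N s hs _ (le_max_right _ _) l)
  refine ⟨fun s => ∑' l, T (⌈2 + d - s.re⌉₊ + 1) l s, fun s0 => ?_, fun s hs => ?_⟩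
  · have h1 : (2 + d - ((⌈2 + d - s0.re⌉₊ + 2 : ℕ) : ℝ) : ℝ) < s0.re - 1 := by
      have := Nat.le_ceil (2 + d - s0.re)
      push_cast
      linarith
    obtain ⟨u, hu, h⟩ := T2 _ s0 1 h1
    have h2 := differentiableOn_tsum_of_summable_norm hu (fun l => (h l).1) isOpen_ball
      fun l => (h l).2
    refine ((h2.congr fun s hs => tsum_congr (hG _ s ?_)).differentiableAt
      (ball_mem_nhds _ one_pos))
    rw [mem_ball, dist_eq_norm] at hs
    have := (abs_le.1 (abs_re_le_norm (s - s0))).1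
    rw [sub_re] at this
    linarith
  · push_cast at hs
    obtain ⟨u, hu, h⟩ := T2 0 s ((s.re - (2 + d)) / 2) (by push_cast; linarith)
    have h1 : Summable fun l => T 0 l s :=
      Summable.of_norm_bounded hu fun l => (h l).2 s (mem_ball_self (by linarith))
    have h2 := h1.hasSum
    beta_reduce
    rw [tsum_congr (hG 0 s (by push_cast; linarith))]
    convert h2 using 2 with l
    rw [hT, HH_zero, ha]
    simp

theorem notBad : ¬ BadMat (Matrix.diagonal fun _ : Fin 2 => (√2 : ℝ)) := by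
  rintro ⟨u, δ, _, c, hc, h⟩
  obtain ⟨v, hv, e⟩ : ∃ v : Fin 2 → ℤ, v ≠ 0 ∧ v 0 * u 0 + v 1 * u 1 = 0 := by
    by_cases hu : u = 0
    · exact ⟨fun _ => 1, fun h => by simpa using congrFun h 0, by simp [hu]⟩
    · refine ⟨![-u 1, u 0], fun h => hu ?_, by simp; ring⟩
      funext i
      fin_cases i
      · simpa using congrFun h 1
      · simpa using congrFun h 0
  have h1 := h v hv 0
  have h2 : (v 0 : ℝ) * u 0 + v 1 * u 1 = 0 := by exact_mod_cast e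
  have h3 : ∑ i, (v i : ℝ) * ((Matrix.diagonal fun _ : Fin 2 => (√2 : ℝ)).transpose.mulVec
      fun j => (u j : ℝ)) i = 0 := by
    simp only [Matrix.diagonal_transpose, Matrix.mulVec_diagonal, Fin.sum_univ_two]
    linear_combination √2 * h2
  rw [h3] at h1
  simp only [Int.cast_zero, sub_zero, abs_zero] at h1
  have := mul_pos hc (Real.rpow_pos_of_pos (nrm_pos v hv) (-δ))
  linarith

theorem main : ∃ (n : ℕ) (Θ : Matrix (Fin n) (Fin n) ℝ), 1 ≤ n ∧ ¬ BadMat Θ ∧ PropH Θ :=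
  ⟨2, _, by norm_num, notBad, propH⟩

end Pool.Agent.H.MP_6f2e8a_an
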